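import Pool.Agent.V5helper16.KR.Asym

/-!
# The conjectured space/time trade-off for `k`-reachability fails for every `k ≥ 3`

The conjecture of Q1 says: if the query time is `T ≤ n ^ δ` then `S * T ^ (2 / (k - 1))` is at
least `n ^ 2` up to polylogarithmic factors.  We show that for every `k ≥ 3`, every bound `C * n`
for the number of edges and every `δ > 0` there are data structures on a word RAM with words of
`4 * (⌊log₂ n⌋ + 1)` bits, space `S` and worst-case query time `T ≤ n ^ δ` such that
`S * T ^ (k / ⌊k ^ 2 / 4⌋) ≤ c * n ^ 2` (for even `k` this is `S * T ^ (4 / k) ≤ c * n ^ 2`), so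
that `S * T ^ (2 / (k - 1)) ≤ n ^ (2 - η)` for some `η > 0`.  The query program depends on `k`
only, and it leaves the memory unchanged.

The data structure (parameters `D = M ^ k` and the budget `B = M ^ ⌊k ^ 2 / 4⌋`, where `M` is a
small power of `n`; the graph gets a loop at every vertex; a vertex is called super if its
outdegree or its indegree is at least `D`) consists of

* adjacency lists in both directions;
* the distance for every pair `(x, y)` such that the outdegree of `x` times the indegree of `y` is
  at least `D`, or such that one of `x`, `y` is super (`O(n ^ 2 / D)` words);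
* a dictionary of all pairs which are joined by a walk with `k` edges without super inner vertex
  (a table of pointers to blocks of `D` words, again `O(n ^ 2 / D)` words).

A query `(s, t)` looks up the dictionary, and then explores all pairs `(x, y)` with `x` reached
from `s` in `i` steps and `y` reached backwards from `t` in `l` steps, as long as the product of
all degrees on the two walks is at most `B`; there are at most `B` such pairs of walks for every
`(i, l)`.  If a walk `x_0, ..., x_k` from `s` to `t` has the super inner vertex `x_p`, then one of
the pairs of the exploration is in the table: otherwise the outdegrees of `x_0, ..., x_(p-1)` and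
the indegrees of `x_k, ..., x_(p+1)` violate the staircase inequality `KR.stair` (proved by a
coupling of two partitions of the interval `[0, log B]` and the Cauchy-Schwarz inequality).
-/

open Filter

namespace Pool.Agent.Results.MP_a349b4_lc.SmallQueryTime

open Pool.Agent.V5helper16.KR

/-- **The space/time conjecture for `k`-reachability fails for every `k ≥ 3`.** -/
theorem result : ∀ k : ℕ, 3 ≤ k → ∃ P : Prog, ∀ C : ℕ, ∀ δ : ℝ, 0 < δ →
    ∃ (S T : ℕ → ℕ) (c η : ℝ), 0 < η ∧ ∀ᶠ n : ℕ in atTop,
      Solves k C n (4 * (Nat.log 2 n + 1)) (S n) (T n) P ∧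
      (T n : ℝ) ≤ (n : ℝ) ^ δ ∧
      (S n : ℝ) * (T n : ℝ) ^ ((k : ℝ) / ((k ^ 2 / 4 : ℕ) : ℝ)) ≤ c * (n : ℝ) ^ 2 ∧
      (S n : ℝ) * (T n : ℝ) ^ (2 / ((k : ℝ) - 1)) ≤ (n : ℝ) ^ (2 - η) :=
  fun k hk => ⟨query k, fun C δ hδ => asym k hk C δ hδ⟩

end Pool.Agent.Results.MP_a349b4_lc.SmallQueryTime
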